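import Pool.Agent.Lib.H63F.F1

/-!
# H13G, file A: uncrossing for a general requirement `r`

`Req r`: crossing sets `S`, `T` satisfy `r S + r T ≤ r (S ∩ T) + r (S ∪ T)` or `r S + r T ≤ r (S \ T) + r (T \ S)`.
The minimizers of `x(δ S) + ε |S| |V - S| - r S` are laminar (`min_nonxG`), hypothesis (a) of the minimax (`hyp_aG`).
-/

set_option autoImplicit false
set_option linter.unusedSectionVars false

namespace H13G

open Finset H98P H63F

variable {V : Type*} [Fintype V] [DecidableEq V]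

/-- Skew supermodular requirements (crossing pairs only). -/
def Req (r : Finset V → ℝ) : Prop :=
  ∀ S T : Finset V, ¬ NonX S T →
    r S + r T ≤ r (S ∩ T) + r (S ∪ T) ∨ r S + r T ≤ r (S \ T) + r (T \ S)

/-- The perturbed offset of the cut `S`. -/
noncomputable def qr (r : Finset V → ℝ) (ε : ℝ) (S : Cut V) : ℝ := qc ε S - r S.1

theorem px_mk (a b : V) (S : Finset V) : px s(a, b) S = if (a ∈ S ↔ b ∈ S) then 0 else 1 := by
  unfold px
  by_cases ha : a ∈ S <;> by_cases hb : b ∈ S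
  · rw [if_neg, if_pos (by simp [ha, hb])]
    rintro ⟨x, hx, y, hy, h⟩
    rcases Sym2.eq_iff.1 h with ⟨h1, h2⟩ | ⟨h1, h2⟩
    · exact hy (h2 ▸ hb)
    · exact hy (h1 ▸ ha)
  · rw [if_pos ⟨a, ha, b, hb, rfl⟩, if_neg (by simp [ha, hb])]
  · rw [if_pos ⟨b, hb, a, ha, Sym2.eq_swap⟩, if_neg (by simp [ha, hb])]
  · rw [if_neg, if_pos (by simp [ha, hb])]
    rintro ⟨x, hx, y, hy, h⟩
    rcases Sym2.eq_iff.1 h with ⟨h1, h2⟩ | ⟨h1, h2⟩
    · exact ha (h1 ▸ hx)
    · exact hb (h2 ▸ hx)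

theorem px_nonneg (e : Sym2 V) (S : Finset V) : 0 ≤ px e S := by
  unfold px
  split_ifs
  · exact zero_le_one
  · exact le_rfl

theorem px_submod' (e : Sym2 V) (S T : Finset V) : px e (S ∩ T) + px e (S ∪ T) ≤ px e S + px e T := by
  induction e using Sym2.ind with
  | _ a b =>
    rw [px_mk, px_mk, px_mk, px_mk]
    by_cases ha : a ∈ S <;> by_cases hb : b ∈ S <;> by_cases ha' : a ∈ T <;> by_cases hb' : b ∈ T <;>
      simp [ha, hb, ha', hb']

theorem px_posimod (e : Sym2 V) (S T : Finset V) : px e (S \ T) + px e (T \ S) ≤ px e S + px e T := by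
  induction e using Sym2.ind with
  | _ a b =>
    rw [px_mk, px_mk, px_mk, px_mk]
    by_cases ha : a ∈ S <;> by_cases hb : b ∈ S <;> by_cases ha' : a ∈ T <;> by_cases hb' : b ∈ T <;>
      simp [ha, hb, ha', hb']

theorem cutw_submod {x : Sym2 V → ℝ} (hx : ∀ e, 0 ≤ x e) (S T : Finset V) :
    cutw x (S ∩ T) + cutw x (S ∪ T) ≤ cutw x S + cutw x T := by
  unfold cutw
  rw [← Finset.sum_add_distrib, ← Finset.sum_add_distrib]
  refine Finset.sum_le_sum fun e _ => ?_
  rw [← mul_add, ← mul_add]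
  exact mul_le_mul_of_nonneg_left (px_submod' e S T) (hx e)

theorem cutw_posimod {x : Sym2 V → ℝ} (hx : ∀ e, 0 ≤ x e) (S T : Finset V) :
    cutw x (S \ T) + cutw x (T \ S) ≤ cutw x S + cutw x T := by
  unfold cutw
  rw [← Finset.sum_add_distrib, ← Finset.sum_add_distrib]
  refine Finset.sum_le_sum fun e _ => ?_
  rw [← mul_add, ← mul_add]
  exact mul_le_mul_of_nonneg_left (px_posimod e S T) (hx e)

theorem pay_eq (r : Finset V → ℝ) (ε : ℝ) (x : Sym2 V → ℝ) (S : Cut V) :
    pay pc (qr r ε) x S = cutw x S.1 + ε * (S.1.card * (univ \ S.1).card) - r S.1 := by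
  unfold pay qr qc cutw pc
  ring

private theorem co (X : Finset V) : (((univ \ X).card : ℕ) : ℝ) = (univ : Finset V).card - X.card := by
  have h := Finset.card_sdiff_add_card_eq_card (subset_univ X)
  have h' : (((univ \ X).card : ℕ) : ℝ) + X.card = (univ : Finset V).card := by exact_mod_cast h
  linarith

private theorem cards (S T : Finset V) :
    ((S.card : ℕ) : ℝ) = (S \ T).card + (S ∩ T).card ∧ ((T.card : ℕ) : ℝ) = (T \ S).card + (S ∩ T).card ∧
      (((S ∪ T).card : ℕ) : ℝ) = (S \ T).card + (T \ S).card + (S ∩ T).card := by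
  have h1 := Finset.card_sdiff_add_card_inter S T
  have h2 := Finset.card_sdiff_add_card_inter T S
  have h3 := Finset.card_union_add_card_inter S T
  rw [Finset.inter_comm T S] at h2
  refine ⟨?_, ?_, ?_⟩
  · exact_mod_cast h1.symm
  · exact_mod_cast h2.symm
  · have h1' : (((S \ T).card : ℕ) : ℝ) + (S ∩ T).card = S.card := by exact_mod_cast h1
    have h2' : (((T \ S).card : ℕ) : ℝ) + (S ∩ T).card = T.card := by exact_mod_cast h2
    have h3' : (((S ∪ T).card : ℕ) : ℝ) + (S ∩ T).card = S.card + T.card := by exact_mod_cast h3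
    linarith

/-- The strict part of the submodularity of `|S| |V - S|`. -/
theorem gg_sub (S T : Finset V) :
    (S.card : ℝ) * (univ \ S).card + T.card * (univ \ T).card =
      (S ∩ T).card * (univ \ (S ∩ T)).card + (S ∪ T).card * (univ \ (S ∪ T)).card +
        2 * ((S \ T).card * (T \ S).card) := by
  obtain ⟨h1, h2, h3⟩ := cards S T
  rw [co S, co T, co (S ∩ T), co (S ∪ T), h3, h1, h2]
  ring

theorem gg_pos (S T : Finset V) :
    (S.card : ℝ) * (univ \ S).card + T.card * (univ \ T).card =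
      (S \ T).card * (univ \ (S \ T)).card + (T \ S).card * (univ \ (T \ S)).card +
        2 * ((S ∩ T).card * (univ \ (S ∪ T)).card) := by
  obtain ⟨h1, h2, h3⟩ := cards S T
  rw [co S, co T, co (S \ T), co (T \ S), co (S ∪ T), h3, h1, h2]
  ring

/-- UNCROSSING: two minimizers do not cross. -/
theorem min_nonxG {r : Finset V → ℝ} (hr : Req r) {ε : ℝ} (hε : 0 < ε) {x : Sym2 V → ℝ} (hx : ∀ e, 0 ≤ x e)
    {S T : Cut V} (hS : ∀ S', pay pc (qr r ε) x S ≤ pay pc (qr r ε) x S')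
    (hT : ∀ S', pay pc (qr r ε) x T ≤ pay pc (qr r ε) x S') : NonX S.1 T.1 := by
  by_contra hn
  have hn' := hn
  unfold NonX at hn'
  push Not at hn'
  obtain ⟨n1, n2, n3, n4⟩ := hn'
  have m1 : (S.1 ∩ T.1).Nonempty := Finset.nonempty_iff_ne_empty.2 (Finset.nonempty_iff_ne_empty.1 n1)
  have m2 : (S.1 \ T.1).Nonempty := Finset.sdiff_nonempty.2 n2
  have m3 : (T.1 \ S.1).Nonempty := Finset.sdiff_nonempty.2 n3
  have m4 : (univ \ (S.1 ∪ T.1)).Nonempty := by
    rw [Finset.sdiff_nonempty]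
    intro h
    exact n4 (Finset.univ_subset_iff.1 h)
  rcases hr S.1 T.1 hn with h | h
  · have i1 : S.1 ∩ T.1 ≠ univ := by
      intro h1
      obtain ⟨a, ha⟩ := m2
      exact (Finset.mem_sdiff.1 ha).2 (Finset.mem_inter.1 (h1 ▸ mem_univ a)).2
    have a1 := hS ⟨S.1 ∩ T.1, m1, i1⟩
    have a2 := hT ⟨S.1 ∪ T.1, m1.mono (Finset.inter_subset_union), n4⟩
    rw [pay_eq, pay_eq] at a1 a2
    have a3 := cutw_submod hx S.1 T.1
    have a4 := gg_sub S.1 T.1
    have a5 : (0 : ℝ) < (S.1 \ T.1).card * (T.1 \ S.1).card := by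
      have := Finset.card_pos.2 m2
      have := Finset.card_pos.2 m3
      positivity
    have a6 := mul_pos hε a5
    simp only at a1 a2
    nlinarith [a1, a2, a3, a4, a6]
  · have i1 : S.1 \ T.1 ≠ univ := by
      intro h1
      obtain ⟨a, ha⟩ := m1
      have h2 : a ∈ S.1 \ T.1 := by rw [h1]; exact mem_univ a
      exact (Finset.mem_sdiff.1 h2).2 (Finset.mem_inter.1 ha).2
    have i2 : T.1 \ S.1 ≠ univ := by
      intro h1
      obtain ⟨a, ha⟩ := m1
      have h2 : a ∈ T.1 \ S.1 := by rw [h1]; exact mem_univ a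
      exact (Finset.mem_sdiff.1 h2).2 (Finset.mem_inter.1 ha).1
    have a1 := hS ⟨S.1 \ T.1, m2, i1⟩
    have a2 := hT ⟨T.1 \ S.1, m3, i2⟩
    rw [pay_eq, pay_eq] at a1 a2
    have a3 := cutw_posimod hx S.1 T.1
    have a4 := gg_pos S.1 T.1
    have a5 : (0 : ℝ) < (S.1 ∩ T.1).card * (univ \ (S.1 ∪ T.1)).card := by
      have := Finset.card_pos.2 m1
      have := Finset.card_pos.2 m4
      positivity
    have a6 := mul_pos hε a5
    simp only at a1 a2
    nlinarith [a1, a2, a3, a4, a6]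

/-- Hypothesis (a) of the minimax theorem for a general requirement. -/
theorem hyp_aG (hV : 2 ≤ Fintype.card V) {r : Finset V → ℝ} (hr : Req r) {ε : ℝ} (hε : 0 < ε)
    {x : Sym2 V → ℝ} (hx : ∀ e, 0 ≤ x e) :
    AC fun T : Finset (Cut V) => Lam T ∧ Amin pc (qr r ε) x T := by
  classical
  obtain ⟨a, b, hab⟩ : ∃ a b : V, a ≠ b := Fintype.exists_pair_of_one_lt_card (by omega)
  have : Nonempty (Cut V) := ⟨⟨{a}, singleton_nonempty a, fun h => hab.symm (by
    have := (h ▸ mem_univ b : b ∈ ({a} : Finset V))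
    exact Finset.mem_singleton.1 this)⟩⟩
  obtain ⟨S₀, -, hS₀⟩ := Finset.exists_min_image (univ : Finset (Cut V)) (pay pc (qr r ε) x) univ_nonempty
  set A : Finset (Cut V) := univ.filter fun S => ∀ S', pay pc (qr r ε) x S ≤ pay pc (qr r ε) x S' with hA
  have hne : A.Nonempty := ⟨S₀, by rw [hA, mem_filter]; exact ⟨mem_univ _, fun S' => hS₀ S' (mem_univ _)⟩⟩
  refine ac_congr (K := fun T => T ⊆ A) (fun T => ?_) (ac_simplex hne)
  constructor
  · intro h
    refine ⟨fun S hS S' hS' => ?_, fun S hS => ?_⟩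
    · have h1 := (mem_filter.1 (h hS)).2
      have h2 := (mem_filter.1 (h hS')).2
      exact min_nonxG hr hε hx h1 h2
    · exact (mem_filter.1 (h hS)).2
  · rintro ⟨-, h⟩ S hS
    rw [hA, mem_filter]
    exact ⟨mem_univ _, h S hS⟩

end H13G
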