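import Pool.Agent.Lib.H63F.F6
import Pool.Agent.Lib.H63F.G3
import Pool.Agent.Lib.H13G.A

/-! # H13G, chunk B: the value step with an arbitrary comparison weighting `x0` -/

set_option autoImplicit false
set_option linter.unusedSectionVars false

namespace H13G

open Finset H98P H98Z H98M H63F

variable {V : Type*} [Fintype V] [DecidableEq V]

private theorem b_dual (μ : Cut V → ℝ) (y : Sym2 V → ℝ) :
    ∑ S : Cut V, μ S * cutw y S.1 = ∑ e, y e * mm pc μ e := by
  unfold cutw mm pc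
  simp only [Finset.mul_sum]
  rw [Finset.sum_comm]
  refine Finset.sum_congr rfl fun e _ => Finset.sum_congr rfl fun S _ => ?_
  ring

/-- PROOF: `minimax` with `p = pc`, `q = qr r ε`, `K = Plane cross`, `L = Lam`, `hyp_aG`, `hyp_b`. For `G, x, T, μ` and
every cut `S'`: `pay x S' ≥ ∑ S, μ S * pay x S ≥ ∑ S, μ S * (cutw x S - r S) = ∑ e, x e * mm pc μ e - ∑ S, μ S * r S
= max - ∑ S, μ S * r S ≥ ∑ e, x0 e * mm pc μ e - ∑ S, μ S * r S = ∑ S, μ S * (cutw x0 S - r S) ≥ 0`.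
Loops are not in `G`: the maximum is `≥ 2 / n > 0` (`value`), `mm_loop`. -/
theorem approxG (hV : 2 ≤ Fintype.card V) {cross : Sym2 V → Sym2 V → Prop}
    (hsymm : ∀ e f, cross e f → cross f e) (hHD : ∀ W : Finset V, HD cross W)
    {r : Finset V → ℝ} (hr : Req r) {x0 : Sym2 V → ℝ} (hx0 : x0 ∈ Sx (univ : Finset (Sym2 V)))
    (h0 : ∀ S : Finset V, S.Nonempty → S ≠ univ → r S ≤ cutw x0 S) {ε : ℝ} (hε : 0 < ε) :
    ∃ G : Finset (Sym2 V), Plane cross G ∧ (∀ v, s(v, v) ∉ G) ∧ ∃ x ∈ Sx G,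
      ∀ S : Finset V, S.Nonempty → S ≠ univ → r S - ε * (Fintype.card V : ℝ) ^ 2 ≤ cutw x S := by
  have hn : 0 < Fintype.card V := by omega
  obtain ⟨v₀⟩ := Fintype.card_pos_iff.1 hn
  have : Nonempty (Sym2 V) := ⟨s(v₀, v₀)⟩
  obtain ⟨G, hG, hGp, x, hx, T, hT, hmin, μ, hμ, hmax⟩ := minimax (E := Sym2 V) (C := Cut V) pc
    (qr r ε) (Plane cross) Lam
    (fun s t hst ht e he f hf => ht e (hst he) f (hst hf))
    (fun s t hst ht e he f hf => ht e (hst he) f (hst hf))
    (fun e he => absurd he (notMem_empty e)) (fun e he => absurd he (notMem_empty e))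
    (fun x hx => hyp_aG hV hr hε hx.1) (fun T hT μ hμ => hyp_b hV hsymm hHD hT hμ)
  refine ⟨G, hGp, ?_, x, hx, ?_⟩
  · intro v hv
    have h1 := value hμ (hmax _ hv)
    rw [mm_loop] at h1
    have h2 : (0 : ℝ) < Fintype.card V := by exact_mod_cast hn
    have h3 : (0 : ℝ) < 2 / (Fintype.card V : ℝ) := by positivity
    linarith
  · intro S hS hS'
    obtain ⟨e₀, he₀⟩ := hG
    have hM := hmax e₀ he₀
    have hMe : ∀ e ∈ G, mm pc μ e = mm pc μ e₀ := fun e he => le_antisymm (hM e) (hmax e he e₀)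
    have k1 : ∑ S : Cut V, μ S * cutw x S.1 = mm pc μ e₀ := by
      rw [b_dual]
      have : ∀ e, x e * mm pc μ e = x e * mm pc μ e₀ := by
        intro e
        by_cases he : e ∈ G
        · rw [hMe e he]
        · rw [hx.2.1 e he, zero_mul, zero_mul]
      rw [Finset.sum_congr rfl fun e _ => this e, ← Finset.sum_mul, hx.2.2, one_mul]
    have k2 : ∑ S : Cut V, μ S * cutw x0 S.1 ≤ mm pc μ e₀ := by
      rw [b_dual]
      calc ∑ e, x0 e * mm pc μ e ≤ ∑ e, x0 e * mm pc μ e₀ :=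
            Finset.sum_le_sum fun e _ => mul_le_mul_of_nonneg_left (hM e) (hx0.1 e)
        _ = mm pc μ e₀ := by rw [← Finset.sum_mul, hx0.2.2, one_mul]
    have k3 : ∑ S : Cut V, μ S * pay pc (qr r ε) x S ≤ pay pc (qr r ε) x ⟨S, hS, hS'⟩ := by
      calc ∑ S' : Cut V, μ S' * pay pc (qr r ε) x S'
          ≤ ∑ S' : Cut V, μ S' * pay pc (qr r ε) x ⟨S, hS, hS'⟩ := by
            refine Finset.sum_le_sum fun S' _ => ?_
            by_cases h : S' ∈ T
            · exact mul_le_mul_of_nonneg_left (hmin S' h _) (hμ.1 S')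
            · rw [hμ.2.1 S' h, zero_mul, zero_mul]
        _ = pay pc (qr r ε) x ⟨S, hS, hS'⟩ := by rw [← Finset.sum_mul, hμ.2.2, one_mul]
    have k4 : ∑ S : Cut V, (μ S * cutw x S.1 - μ S * cutw x0 S.1) ≤
        ∑ S : Cut V, μ S * pay pc (qr r ε) x S := by
      refine Finset.sum_le_sum fun S' _ => ?_
      rw [pay_eq, ← mul_sub]
      refine mul_le_mul_of_nonneg_left ?_ (hμ.1 S')
      have h1 := h0 S'.1 S'.2.1 S'.2.2
      have h2 : 0 ≤ ε * ((S'.1.card : ℝ) * (univ \ S'.1).card) := by positivity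
      linarith
    rw [Finset.sum_sub_distrib, k1] at k4
    have k5 : 0 ≤ pay pc (qr r ε) x ⟨S, hS, hS'⟩ := by linarith
    rw [pay_eq] at k5
    simp only at k5
    have k6 : (S.card : ℝ) * (univ \ S).card ≤ (Fintype.card V : ℝ) ^ 2 := by
      have h1 : (S.card : ℝ) ≤ Fintype.card V := by exact_mod_cast Finset.card_le_univ S
      have h2 : ((univ \ S).card : ℝ) ≤ Fintype.card V := by
        exact_mod_cast Finset.card_le_univ (univ \ S)
      rw [sq]
      exact mul_le_mul h1 h2 (Nat.cast_nonneg _) (Nat.cast_nonneg _)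
    have k7 := mul_le_mul_of_nonneg_left k6 hε.le
    linarith

end H13G
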