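import Pool.Agent.Lib.H13G.B

/-! # H13G, chunk C: compactness -/

set_option autoImplicit false
set_option linter.unusedSectionVars false

namespace H13G

open Finset H98P H98Z H98M H63F

variable {V : Type*} [Fintype V] [DecidableEq V]

/-- PROOF: for `k : ℕ` let `A k` be the set of all `x` in the finite union of the compact sets `Sx G`, `G` plane without
loops, with `r S - (1 / (k + 1)) * n ^ 2 ≤ cutw x S` for all cuts: compact, nonempty (`approxG`), decreasing; a point of
the intersection does it (`IsCompact.nonempty_iInter_of_sequence_nonempty_isCompact_isClosed`). -/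
theorem exists_x (hV : 2 ≤ Fintype.card V) {cross : Sym2 V → Sym2 V → Prop}
    (hsymm : ∀ e f, cross e f → cross f e) (hHD : ∀ W : Finset V, HD cross W)
    {r : Finset V → ℝ} (hr : Req r) {x0 : Sym2 V → ℝ} (hx0 : x0 ∈ Sx (univ : Finset (Sym2 V)))
    (h0 : ∀ S : Finset V, S.Nonempty → S ≠ univ → r S ≤ cutw x0 S) :
    ∃ G : Finset (Sym2 V), Plane cross G ∧ (∀ v, s(v, v) ∉ G) ∧ ∃ x ∈ Sx G,
      ∀ S : Finset V, S.Nonempty → S ≠ univ → r S ≤ cutw x S := by
  classical
  have hpos : ∀ k : ℕ, 0 < 1 / ((k : ℝ) + 1) := fun k => Nat.one_div_pos_of_nat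
  choose G hG hl x hx hcut using fun k : ℕ => approxG hV hsymm hHD hr hx0 h0 (hpos k)
  have hbound : ∀ k (S : Finset V), S.Nonempty → S ≠ univ →
      r S ≤ cutw (x k) S + 1 / ((k : ℝ) + 1) * (Fintype.card V : ℝ) ^ 2 := by
    intro k S h1 h2
    have h3 := hcut k S h1 h2
    linarith
  have hmem : ∀ k, x k ∈ stdSimplex ℝ (Sym2 V) := fun k => ⟨(hx k).1, (hx k).2.2⟩
  obtain ⟨y, hy, φ, hφ, hlim⟩ := (isCompact_stdSimplex ℝ (Sym2 V)).tendsto_subseq hmem
  have hlime : ∀ e, Filter.Tendsto (fun k => x (φ k) e) Filter.atTop (nhds (y e)) := fun e =>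
    (tendsto_pi_nhds.mp hlim) e
  -- the support of the limit
  have hsupp : ∃ k, ∀ e, y e ≠ 0 → e ∈ G (φ k) := by
    have h1 : ∀ᶠ k in Filter.atTop, ∀ e, y e ≠ 0 → e ∈ G (φ k) := by
      rw [Filter.eventually_all]
      intro e
      by_cases he : y e = 0
      · exact Filter.Eventually.of_forall fun k h => absurd he h
      · have h2 : 0 < y e := lt_of_le_of_ne (hy.1 e) (Ne.symm he)
        filter_upwards [(hlime e).eventually (lt_mem_nhds h2)] with k hk _
        by_contra hne
        exact hk.ne' ((hx (φ k)).2.1 e hne)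
    exact h1.exists
  obtain ⟨k0, hk0⟩ := hsupp
  refine ⟨univ.filter fun e => y e ≠ 0, ?_, ?_, y, ⟨hy.1, ?_, hy.2⟩, ?_⟩
  · intro e he f hf
    exact hG (φ k0) e (hk0 e (mem_filter.mp he).2) f (hk0 f (mem_filter.mp hf).2)
  · intro v hv
    exact hl (φ k0) v (hk0 _ (mem_filter.mp hv).2)
  · intro e he
    by_contra h
    exact he (mem_filter.mpr ⟨mem_univ _, h⟩)
  · intro S hS1 hS2
    have hc : Filter.Tendsto (fun k => cutw (x (φ k)) S +
        1 / ((φ k : ℝ) + 1) * (Fintype.card V : ℝ) ^ 2) Filter.atTop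
        (nhds (cutw y S + 0 * (Fintype.card V : ℝ) ^ 2)) := by
      refine Filter.Tendsto.add ?_ (Filter.Tendsto.mul ?_ tendsto_const_nhds)
      · unfold cutw
        exact tendsto_finsetSum _ fun e _ => (hlime e).mul tendsto_const_nhds
      · exact tendsto_one_div_add_atTop_nhds_zero_nat.comp hφ.tendsto_atTop
    rw [zero_mul, add_zero] at hc
    exact ge_of_tendsto' hc fun k => hbound (φ k) S hS1 hS2

end H13G
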