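import Pool.Agent.Lib.H13G.C

/-! # H13G, chunk D: Theorem G (plane weightings), degrees -/

set_option autoImplicit false
set_option linter.unusedSectionVars false

namespace H13G

open Finset H98P H98Z H98M H63F

variable {V : Type*} [Fintype V] [DecidableEq V]

/-- The sum of the degrees is twice the total weight. -/
theorem sum_deg {x : Sym2 V → ℝ} (hl : ∀ v, x s(v, v) = 0) : ∑ v, cutw x {v} = 2 * ∑ e, x e := by
  sorry

/-- THEOREM G. PROOF: if `∑ x0 = 0` then `x0 = 0`, take `x = 0`. Otherwise divide `r` and `x0` by the sum, `exists_x`,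
multiply. -/
theorem planeG (hV : 2 ≤ Fintype.card V) {cross : Sym2 V → Sym2 V → Prop}
    (hsymm : ∀ e f, cross e f → cross f e) (hHD : ∀ W : Finset V, HD cross W)
    {r : Finset V → ℝ} (hr : Req r) {x0 : Sym2 V → ℝ} (hx0 : ∀ e, 0 ≤ x0 e)
    (h0 : ∀ S : Finset V, S.Nonempty → S ≠ univ → r S ≤ cutw x0 S) :
    ∃ (G : Finset (Sym2 V)) (x : Sym2 V → ℝ), Plane cross G ∧ (∀ v, s(v, v) ∉ G) ∧ (∀ e, 0 ≤ x e) ∧
      (∀ e, e ∉ G → x e = 0) ∧ ∑ e, x e = ∑ e, x0 e ∧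
      ∀ S : Finset V, S.Nonempty → S ≠ univ → r S ≤ cutw x S := by
  sorry

/-- If `r {v}` is the degree of `v` in `x0` (no loops), then the degrees are kept. PROOF: `cutw x {v} ≥ r {v}
= cutw x0 {v}` and the sums over `v` agree (`sum_deg`). -/
theorem planeG_deg (hV : 2 ≤ Fintype.card V) {cross : Sym2 V → Sym2 V → Prop}
    (hsymm : ∀ e f, cross e f → cross f e) (hHD : ∀ W : Finset V, HD cross W)
    {r : Finset V → ℝ} (hr : Req r) {x0 : Sym2 V → ℝ} (hx0 : ∀ e, 0 ≤ x0 e) (hl : ∀ v, x0 s(v, v) = 0)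
    (h0 : ∀ S : Finset V, S.Nonempty → S ≠ univ → r S ≤ cutw x0 S)
    (h1 : ∀ v, r {v} = cutw x0 {v}) :
    ∃ (G : Finset (Sym2 V)) (x : Sym2 V → ℝ), Plane cross G ∧ (∀ v, s(v, v) ∉ G) ∧ (∀ e, 0 ≤ x e) ∧
      (∀ e, e ∉ G → x e = 0) ∧ (∀ v, cutw x {v} = cutw x0 {v}) ∧
      ∀ S : Finset V, S.Nonempty → S ≠ univ → r S ≤ cutw x S := by
  sorry

end H13G
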