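import Pool.Agent.Lib.H13G.A

/-! # H13G, chunk E1: local connectivities are a skew supermodular requirement (Jain) -/

set_option autoImplicit false
set_option linter.unusedSectionVars false

namespace H13G

open Finset H98P H63F

variable {V : Type*} [Fintype V] [DecidableEq V]

private theorem sep_le (l : V → V → ℝ) (hl : ∀ u v, l u v = l v u) {r : Finset V → ℝ}
    (h1 : ∀ (S : Finset V) (u v : V), u ∈ S → v ∉ S → l u v ≤ r S) (X : Finset V) (u v : V)
    (h : ¬ (u ∈ X ↔ v ∈ X)) : l u v ≤ r X := by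
  by_cases hu : u ∈ X
  · exact h1 X u v hu fun hv => h ⟨fun _ => hv, fun _ => hu⟩
  · by_cases hv : v ∈ X
    · rw [hl]
      exact h1 X v u hv hu
    · exact absurd ⟨fun h => absurd h hu, fun h => absurd h hv⟩ h

private theorem req_aux (l : V → V → ℝ) (hl : ∀ u v, l u v = l v u) {r : Finset V → ℝ}
    (h1 : ∀ (S : Finset V) (u v : V), u ∈ S → v ∉ S → l u v ≤ r S) {S T : Finset V}
    {s1 s2 t1 t2 : V} (a1 : s1 ∈ S) (a2 : s2 ∉ S) (b1 : t1 ∈ T) (b2 : t2 ∉ T)
    (hs : r S = l s1 s2) (ht : r T = l t1 t2) (hle : r S ≤ r T) :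
    r S + r T ≤ r (S ∩ T) + r (S ∪ T) ∨ r S + r T ≤ r (S \ T) + r (T \ S) := by
  have H := sep_le l hl h1
  by_cases c1 : t1 ∈ S <;> by_cases c2 : t2 ∈ S
  · have e1 := H (S ∩ T) t1 t2 (by simp [c1, b1, b2])
    have e2 := H (S \ T) t1 t2 (by simp [b1, c2, b2])
    rw [← ht] at e1 e2
    by_cases d : s2 ∈ T
    · have e3 := H (T \ S) s1 s2 (by simp [a1, a2, d])
      rw [← hs] at e3
      exact Or.inr (by linarith)
    · have e3 := H (S ∪ T) s1 s2 (by simp [a1, a2, d])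
      rw [← hs] at e3
      exact Or.inl (by linarith)
  · have e1 := H (S ∩ T) t1 t2 (by simp [c1, b1, b2])
    have e2 := H (S ∪ T) t1 t2 (by simp [c1, c2, b2])
    rw [← ht] at e1 e2
    exact Or.inl (by linarith)
  · have e1 := H (T \ S) t1 t2 (by simp [c1, b1, b2])
    have e2 := H (S \ T) t1 t2 (by simp [c1, c2, b2])
    rw [← ht] at e1 e2
    exact Or.inr (by linarith)
  · have e1 := H (T \ S) t1 t2 (by simp [c1, b1, b2])
    have e2 := H (S ∪ T) t1 t2 (by simp [b1, c2, b2])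
    rw [← ht] at e1 e2
    by_cases d : s1 ∈ T
    · have e3 := H (S ∩ T) s1 s2 (by simp [a1, a2, d])
      rw [← hs] at e3
      exact Or.inl (by linarith)
    · have e3 := H (S \ T) s1 s2 (by simp [a1, a2, d])
      rw [← hs] at e3
      exact Or.inr (by linarith)

private theorem two_le_of_parts {X A B : Finset V} (hA : A.Nonempty) (hB : B.Nonempty)
    (hd : Disjoint A B) (hAX : A ⊆ X) (hBX : B ⊆ X) : 2 ≤ X.card := by
  have h1 := Finset.card_pos.2 hA
  have h2 := Finset.card_pos.2 hB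
  have h3 := Finset.card_le_card (Finset.union_subset hAX hBX)
  rw [Finset.card_union_of_disjoint hd] at h3
  omega

/-- PROOF: let `S`, `T` cross; both and their complements have at least two elements, `r S = l s1 s2`, `r T = l t1 t2`
with `s1 ∈ S`, `s2 ∉ S`, `t1 ∈ T`, `t2 ∉ T`; by symmetry `r S ≤ r T`. Cases for `t1`, `t2`:
`t1 ∈ S ∩ T`, `t2 ∉ S ∪ T`: `r (S ∩ T)`, `r (S ∪ T) ≥ r T`. `t1 ∈ T \ S`, `t2 ∈ S \ T`: `r (T \ S)`, `r (S \ T) ≥ r T`.
`t1 ∈ S ∩ T`, `t2 ∈ S \ T`: `r (S ∩ T)`, `r (S \ T) ≥ r T`; `s2 ∈ T \ S` gives `r (T \ S) ≥ r S`, `s2 ∉ S ∪ T` gives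
`r (S ∪ T) ≥ r S`. `t1 ∈ T \ S`, `t2 ∉ S ∪ T`: `r (T \ S)`, `r (S ∪ T) ≥ r T`; `s1 ∈ S ∩ T` gives `r (S ∩ T) ≥ r S`,
`s1 ∈ S \ T` gives `r (S \ T) ≥ r S`. -/
theorem req_of_max (l : V → V → ℝ) (hl : ∀ u v, l u v = l v u) {r : Finset V → ℝ}
    (h1 : ∀ (S : Finset V) (u v : V), u ∈ S → v ∉ S → l u v ≤ r S)
    (h2 : ∀ S : Finset V, 2 ≤ S.card → 2 ≤ (univ \ S).card → ∃ u ∈ S, ∃ v, v ∉ S ∧ r S = l u v) : Req r := by
  intro S T hn
  unfold NonX at hn
  push Not at hn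
  obtain ⟨n1, n2, n3, n4⟩ := hn
  have m1 : (S ∩ T).Nonempty := n1
  have m2 : (S \ T).Nonempty := Finset.sdiff_nonempty.2 n2
  have m3 : (T \ S).Nonempty := Finset.sdiff_nonempty.2 n3
  have m4 : (univ \ (S ∪ T)).Nonempty := by
    rw [Finset.sdiff_nonempty]
    intro h
    exact n4 (Finset.univ_subset_iff.1 h)
  have dS : Disjoint (S ∩ T) (S \ T) := by
    rw [Finset.disjoint_left]
    intro x hx hx'
    exact (Finset.mem_sdiff.1 hx').2 (Finset.mem_inter.1 hx).2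
  have dT : Disjoint (S ∩ T) (T \ S) := by
    rw [Finset.disjoint_left]
    intro x hx hx'
    exact (Finset.mem_sdiff.1 hx').2 (Finset.mem_inter.1 hx).1
  have dU : Disjoint (T \ S) (univ \ (S ∪ T)) := by
    rw [Finset.disjoint_left]
    intro x hx hx'
    exact (Finset.mem_sdiff.1 hx').2 (Finset.mem_union_right _ (Finset.mem_sdiff.1 hx).1)
  have dU' : Disjoint (S \ T) (univ \ (S ∪ T)) := by
    rw [Finset.disjoint_left]
    intro x hx hx'
    exact (Finset.mem_sdiff.1 hx').2 (Finset.mem_union_left _ (Finset.mem_sdiff.1 hx).1)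
  obtain ⟨s1, a1, s2, a2, hs⟩ := h2 S
    (two_le_of_parts m1 m2 dS Finset.inter_subset_left Finset.sdiff_subset)
    (two_le_of_parts m3 m4 dU
      (fun x hx => Finset.mem_sdiff.2 ⟨mem_univ x, (Finset.mem_sdiff.1 hx).2⟩)
      (Finset.sdiff_subset_sdiff (Finset.Subset.refl _) Finset.subset_union_left))
  obtain ⟨t1, b1, t2, b2, ht⟩ := h2 T
    (two_le_of_parts m1 m3 dT Finset.inter_subset_right Finset.sdiff_subset)
    (two_le_of_parts m2 m4 dU'
      (fun x hx => Finset.mem_sdiff.2 ⟨mem_univ x, (Finset.mem_sdiff.1 hx).2⟩)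
      (Finset.sdiff_subset_sdiff (Finset.Subset.refl _) Finset.subset_union_right))
  rcases le_total (r S) (r T) with hle | hle
  · exact req_aux l hl h1 a1 a2 b1 b2 hs ht hle
  · rcases req_aux l hl h1 b1 b2 a1 a2 ht hs hle with h | h
    · left
      rw [Finset.inter_comm, Finset.union_comm] at h
      linarith
    · right
      linarith

end H13G
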