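import Pool.Agent.Lib.H13G.E1

/-! # H13G, chunk E2: the requirement of the local connectivities of a weighting -/

set_option autoImplicit false
set_option linter.unusedSectionVars false

namespace H13G

open Finset H98P H63F

variable {V : Type*} [Fintype V] [DecidableEq V]

/-- the sets which separate `u` from `v` -/
private def E2_F (u v : V) : Finset (Finset V) := univ.filter fun T => u ∈ T ∧ v ∉ T

private theorem E2_memF {u v : V} {T : Finset V} : T ∈ E2_F u v ↔ u ∈ T ∧ v ∉ T := by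
  unfold E2_F
  rw [Finset.mem_filter]
  exact ⟨fun h => h.2, fun h => ⟨Finset.mem_univ _, h⟩⟩

/-- local connectivity -/
private noncomputable def E2_l (x0 : Sym2 V → ℝ) (u v : V) : ℝ :=
  if h : (E2_F u v).Nonempty then (E2_F u v).inf' h (cutw x0) else 0

private theorem E2_compl (x0 : Sym2 V → ℝ) (S : Finset V) : cutw x0 (univ \ S) = cutw x0 S := by
  unfold cutw
  refine Finset.sum_congr rfl fun e _ => ?_
  have h : px e (univ \ S) = px e S := by
    induction e using Sym2.ind with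
    | _ a b =>
      rw [px_mk, px_mk]
      by_cases ha : a ∈ S <;> by_cases hb : b ∈ S <;> simp [ha, hb]
  rw [h]

private theorem E2_le (x0 : Sym2 V → ℝ) {u v : V} {T : Finset V} (hu : u ∈ T) (hv : v ∉ T) :
    E2_l x0 u v ≤ cutw x0 T := by
  have h : T ∈ E2_F u v := E2_memF.2 ⟨hu, hv⟩
  unfold E2_l
  rw [dif_pos ⟨T, h⟩]
  exact Finset.inf'_le _ h

private theorem E2_ex (x0 : Sym2 V → ℝ) {u v : V} (huv : u ≠ v) :
    ∃ T : Finset V, u ∈ T ∧ v ∉ T ∧ E2_l x0 u v = cutw x0 T := by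
  have h : (E2_F u v).Nonempty := ⟨{u}, E2_memF.2 ⟨Finset.mem_singleton_self u, fun h => huv (Finset.mem_singleton.1 h).symm⟩⟩
  obtain ⟨T, hT, hT'⟩ := Finset.exists_mem_eq_inf' h (cutw x0)
  have h1 := E2_memF.1 hT
  refine ⟨T, h1.1, h1.2, ?_⟩
  unfold E2_l
  rw [dif_pos h, hT']

private theorem E2_symm_le (x0 : Sym2 V → ℝ) {u v : V} (huv : u ≠ v) : E2_l x0 u v ≤ E2_l x0 v u := by
  obtain ⟨T, h1, h2, h3⟩ := E2_ex x0 huv.symm
  rw [h3, ← E2_compl]
  refine E2_le x0 ?_ ?_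
  · exact Finset.mem_sdiff.2 ⟨Finset.mem_univ _, h2⟩
  · intro h
    exact (Finset.mem_sdiff.1 h).2 h1

private theorem E2_symm (x0 : Sym2 V → ℝ) (u v : V) : E2_l x0 u v = E2_l x0 v u := by
  by_cases huv : u = v
  · rw [huv]
  · exact le_antisymm (E2_symm_le x0 huv) (E2_symm_le x0 (Ne.symm huv))

/-- the pairs separated by `S` -/
private def E2_P (S : Finset V) : Finset (V × V) := S ×ˢ (univ \ S)

private theorem E2_memP {S : Finset V} {q : V × V} : q ∈ E2_P S ↔ q.1 ∈ S ∧ q.2 ∉ S := by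
  unfold E2_P
  rw [Finset.mem_product, Finset.mem_sdiff]
  exact ⟨fun h => ⟨h.1, h.2.2⟩, fun h => ⟨h.1, Finset.mem_univ _, h.2⟩⟩

/-- the requirement -/
private noncomputable def E2_r (x0 : Sym2 V → ℝ) (S : Finset V) : ℝ :=
  if S.card = 1 then cutw x0 S
  else if h : (E2_P S).Nonempty then (E2_P S).sup' h (fun q => E2_l x0 q.1 q.2) else 0

private theorem E2_h1 (x0 : Sym2 V → ℝ) (S : Finset V) (u v : V) (hu : u ∈ S) (hv : v ∉ S) :
    E2_l x0 u v ≤ E2_r x0 S := by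
  unfold E2_r
  by_cases hc : S.card = 1
  · rw [if_pos hc]
    exact E2_le x0 hu hv
  · have h : (u, v) ∈ E2_P S := E2_memP.2 ⟨hu, hv⟩
    rw [if_neg hc, dif_pos ⟨_, h⟩]
    exact Finset.le_sup' (fun q : V × V => E2_l x0 q.1 q.2) h

private theorem E2_h2 (x0 : Sym2 V → ℝ) (S : Finset V) (hS : S.Nonempty) (hS' : S ≠ univ) (hc : S.card ≠ 1) :
    ∃ u ∈ S, ∃ v, v ∉ S ∧ E2_r x0 S = E2_l x0 u v := by
  obtain ⟨u, hu⟩ := hS
  obtain ⟨v, hv⟩ : ∃ v, v ∉ S := by
    by_contra hno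
    push Not at hno
    exact hS' (Finset.eq_univ_iff_forall.2 hno)
  have h : (E2_P S).Nonempty := ⟨(u, v), E2_memP.2 ⟨hu, hv⟩⟩
  obtain ⟨q, hq, hq'⟩ := Finset.exists_mem_eq_sup' h (fun q : V × V => E2_l x0 q.1 q.2)
  have h1 := E2_memP.1 hq
  refine ⟨q.1, h1.1, q.2, h1.2, ?_⟩
  unfold E2_r
  rw [if_neg hc, dif_pos h, hq']

/-- The requirement of a weighting. PROOF: `l u v` = the minimum of `cutw x0 T` over the `T` with `u ∈ T`, `v ∉ T`
(symmetric: complements), `r S` = the maximum of `l u v` over `u ∈ S`, `v ∉ S`, except `r {v} = cutw x0 {v}`. -/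
theorem keep {x0 : Sym2 V → ℝ} (hV : 2 ≤ Fintype.card V) :
    ∃ r : Finset V → ℝ, Req r ∧ (∀ S : Finset V, S.Nonempty → S ≠ univ → r S ≤ cutw x0 S) ∧
      (∀ v, r {v} = cutw x0 {v}) ∧
      ∀ (S : Finset V) (u v : V), u ∈ S → v ∉ S → ∃ T : Finset V, u ∈ T ∧ v ∉ T ∧ cutw x0 T ≤ r S := by
  refine ⟨E2_r x0, ?_, ?_, ?_, ?_⟩
  · refine req_of_max (E2_l x0) (E2_symm x0) (E2_h1 x0) fun S h1 h2 => ?_
    have hS : S.Nonempty := Finset.card_pos.1 (by omega)
    have hS' : S ≠ univ := by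
      rintro rfl
      rw [Finset.sdiff_self, Finset.card_empty] at h2
      omega
    obtain ⟨u, hu, v, hv, h⟩ := E2_h2 x0 S hS hS' (by omega)
    exact ⟨u, hu, v, hv, h⟩
  · intro S hS hS'
    by_cases hc : S.card = 1
    · unfold E2_r
      rw [if_pos hc]
    · obtain ⟨u, hu, v, hv, h⟩ := E2_h2 x0 S hS hS' hc
      rw [h]
      exact E2_le x0 hu hv
  · intro v
    unfold E2_r
    rw [if_pos (Finset.card_singleton v)]
  · intro S u v hu hv
    have huv : u ≠ v := fun h => hv (h ▸ hu)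
    obtain ⟨T, h1, h2, h3⟩ := E2_ex x0 huv
    exact ⟨T, h1, h2, h3 ▸ E2_h1 x0 S u v hu hv⟩

end H13G
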