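import Pool.Agent.Lib.H13G.A

/-! # H13G, chunk F: the requirement and the comparison weighting of a tree degree sequence -/

set_option autoImplicit false
set_option linter.unusedSectionVars false

namespace H13G

open Finset H98P H63F

variable {V : Type*} [Fintype V] [DecidableEq V]

/-- The requirement of the spanning tree polytope with degrees `d`. -/
noncomputable def rt (d : V → ℕ) (S : Finset V) : ℝ := ∑ v ∈ S, (d v : ℝ) - 2 * S.card + 2

/-- PROOF: modular plus a constant: equality for `∩`, `∪`. -/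
theorem rt_req (d : V → ℕ) : Req (rt d) := by
  intro S T _
  left
  have h1 := Finset.sum_union_inter (s₁ := S) (s₂ := T) (f := fun v => (d v : ℝ))
  have h2 : (((S ∪ T).card : ℕ) : ℝ) + (S ∩ T).card = S.card + T.card := by
    exact_mod_cast Finset.card_union_add_card_inter S T
  unfold rt
  linarith

private theorem fch_cutw (y : Sym2 V → ℝ) (S : Finset V) :
    cutw y S = ∑ a ∈ S, ∑ b ∈ univ \ S, y s(a, b) := by
  classical
  set I : Finset (Sym2 V) := (S ×ˢ (univ \ S)).image (fun p => s(p.1, p.2)) with hI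
  have h1 : ∀ e : Sym2 V, y e * px e S = if e ∈ I then y e else 0 := by
    intro e
    by_cases he : e ∈ I
    · rw [if_pos he]
      rw [hI, mem_image] at he
      obtain ⟨⟨a, b⟩, hab, rfl⟩ := he
      rw [mem_product, mem_sdiff] at hab
      obtain ⟨ha, -, hb⟩ := hab
      unfold px
      rw [if_pos ⟨a, ha, b, hb, rfl⟩, mul_one]
    · rw [if_neg he]
      unfold px
      rw [if_neg, mul_zero]
      rintro ⟨a, ha, b, hb, rfl⟩
      apply he
      rw [hI, mem_image]
      exact ⟨(a, b), mem_product.2 ⟨ha, mem_sdiff.2 ⟨mem_univ _, hb⟩⟩, rfl⟩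
  unfold cutw
  rw [sum_congr rfl (fun e _ => h1 e), sum_ite_mem, univ_inter, hI, sum_image, sum_product]
  rintro ⟨a, b⟩ hab ⟨a', b'⟩ hab' h
  rw [mem_coe, mem_product, mem_sdiff] at hab hab'
  obtain ⟨ha, -, hb⟩ := hab
  obtain ⟨ha', -, hb'⟩ := hab'
  rcases Sym2.eq_iff.1 h with ⟨h1, h2⟩ | ⟨h1, h2⟩
  · exact Prod.ext h1 h2
  · exact absurd (h1 ▸ ha) hb'

/-- the comparison weighting -/
private noncomputable def fchx (d : V → ℕ) : Sym2 V → ℝ :=
  Sym2.lift ⟨fun u v => if u = v then 0 else ((d u : ℝ) + d v - 2) / ((Fintype.card V : ℝ) - 2), by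
    intro u v
    beta_reduce
    by_cases h : u = v
    · rw [if_pos h, if_pos h.symm]
    · rw [if_neg h, if_neg (Ne.symm h), add_comm (d u : ℝ)]⟩

private theorem fchx_mk (d : V → ℕ) (u v : V) :
    fchx d s(u, v) = if u = v then 0 else ((d u : ℝ) + d v - 2) / ((Fintype.card V : ℝ) - 2) := rfl

private theorem fch_sum (d : V → ℕ) (hs : ∑ v, d v + 2 = 2 * Fintype.card V) (S : Finset V) :
    ∑ b ∈ univ \ S, (d b : ℝ) = 2 * Fintype.card V - 2 - ∑ a ∈ S, (d a : ℝ) := by
  have h1 : ∑ b ∈ univ \ S, (d b : ℝ) + ∑ a ∈ S, (d a : ℝ) = ∑ v, (d v : ℝ) :=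
    Finset.sum_sdiff (subset_univ S)
  have h2 : ∑ v, (d v : ℝ) + 2 = 2 * Fintype.card V := by exact_mod_cast hs
  linarith

private theorem fch_cut (hV : 3 ≤ Fintype.card V) (d : V → ℕ)
    (hs : ∑ v, d v + 2 = 2 * Fintype.card V) (S : Finset V) :
    cutw (fchx d) S * ((Fintype.card V : ℝ) - 2) =
      ((Fintype.card V : ℝ) - S.card) * (∑ a ∈ S, (d a : ℝ) - S.card) +
        S.card * ((Fintype.card V : ℝ) - 2 - (∑ a ∈ S, (d a : ℝ) - S.card)) := by
  have hn : ((Fintype.card V : ℝ) - 2) ≠ 0 := by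
    have : (3 : ℝ) ≤ Fintype.card V := by exact_mod_cast hV
    linarith
  have hc : (((univ \ S).card : ℕ) : ℝ) = Fintype.card V - S.card := by
    have h := Finset.card_sdiff_add_card_eq_card (subset_univ S)
    rw [card_univ] at h
    have h' : (((univ \ S).card : ℕ) : ℝ) + S.card = Fintype.card V := by exact_mod_cast h
    linarith
  have h1 : ∀ a ∈ S, ∑ b ∈ univ \ S, fchx d s(a, b) * ((Fintype.card V : ℝ) - 2) =
      ((Fintype.card V : ℝ) - S.card) * ((d a : ℝ) - 2) +
        (2 * Fintype.card V - 2 - ∑ a ∈ S, (d a : ℝ)) := by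
    intro a ha
    have h2 : ∀ b ∈ univ \ S, fchx d s(a, b) * ((Fintype.card V : ℝ) - 2) =
        ((d a : ℝ) - 2) + d b := by
      intro b hb
      have hab : a ≠ b := by
        rintro rfl
        exact (mem_sdiff.1 hb).2 ha
      rw [fchx_mk, if_neg hab]
      field_simp
      ring
    rw [sum_congr rfl h2, sum_add_distrib, sum_const, nsmul_eq_mul, hc, fch_sum d hs S]
  rw [fch_cutw, Finset.sum_mul]
  have h3 : ∑ a ∈ S, (∑ b ∈ univ \ S, fchx d s(a, b)) * ((Fintype.card V : ℝ) - 2) =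
      ∑ a ∈ S, (((Fintype.card V : ℝ) - S.card) * ((d a : ℝ) - 2) +
        (2 * Fintype.card V - 2 - ∑ a ∈ S, (d a : ℝ))) := by
    refine sum_congr rfl fun a ha => ?_
    rw [Finset.sum_mul, h1 a ha]
  rw [h3, sum_add_distrib, sum_const, nsmul_eq_mul, ← Finset.mul_sum, sum_sub_distrib, sum_const,
    nsmul_eq_mul]
  ring

/-- PROOF: `x0 s(u, v) = (d u + d v - 2) / (n - 2)` for `u ≠ v`, `0` for loops (`Sym2.lift`). With `D = ∑ v ∈ S, (d v - 1)`,
`s = |S|`: `cutw x0 S = ((n - s) D + s (n - 2 - D)) / (n - 2)`, and `cutw x0 S - rt d S = 2 (s - 1) (1 - D / (n - 2)) ≥ 0`.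
The degrees are `d v` (case `s = 1`), so the total is `n - 1`. -/
theorem tree_x0 (hV : 3 ≤ Fintype.card V) (d : V → ℕ) (h1 : ∀ v, 1 ≤ d v)
    (hs : ∑ v, d v + 2 = 2 * Fintype.card V) :
    ∃ x0 : Sym2 V → ℝ, (∀ e, 0 ≤ x0 e) ∧ (∀ v, x0 s(v, v) = 0) ∧ (∀ v, cutw x0 {v} = d v) ∧
      ∀ S : Finset V, S.Nonempty → S ≠ univ → rt d S ≤ cutw x0 S := by
  have hn : (3 : ℝ) ≤ Fintype.card V := by exact_mod_cast hV
  have hd : ∀ v, (1 : ℝ) ≤ d v := fun v => by exact_mod_cast h1 v
  refine ⟨fchx d, ?_, ?_, ?_, ?_⟩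
  · intro e
    induction e using Sym2.ind with
    | _ a b =>
      rw [fchx_mk]
      split_ifs
      · exact le_rfl
      · have h2 := hd a
        have h3 := hd b
        exact div_nonneg (by linarith) (by linarith)
  · intro v
    rw [fchx_mk, if_pos rfl]
  · intro v
    have h := fch_cut hV d hs {v}
    rw [sum_singleton, card_singleton] at h
    push_cast at h
    have h2 : (cutw (fchx d) {v} - d v) * ((Fintype.card V : ℝ) - 2) = 0 := by
      linear_combination h
    rcases mul_eq_zero.1 h2 with h3 | h3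
    · linarith
    · linarith
  · intro S hS _
    have h := fch_cut hV d hs S
    have hc : (1 : ℝ) ≤ S.card := by exact_mod_cast Finset.card_pos.2 hS
    have hD : ∑ a ∈ S, (d a : ℝ) - S.card ≤ (Fintype.card V : ℝ) - 2 := by
      have h2 := fch_sum d hs S
      have h3 : ((univ \ S).card : ℝ) ≤ ∑ b ∈ univ \ S, (d b : ℝ) := by
        have h4 : ∑ _b ∈ univ \ S, (1 : ℝ) ≤ ∑ b ∈ univ \ S, (d b : ℝ) :=
          Finset.sum_le_sum fun b _ => hd b
        rwa [sum_const, nsmul_eq_mul, mul_one] at h4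
      have h5 : (((univ \ S).card : ℕ) : ℝ) = Fintype.card V - S.card := by
        have h6 := Finset.card_sdiff_add_card_eq_card (subset_univ S)
        rw [card_univ] at h6
        have h' : (((univ \ S).card : ℕ) : ℝ) + S.card = Fintype.card V := by exact_mod_cast h6
        linarith
      linarith
    have h2 : (cutw (fchx d) S - rt d S) * ((Fintype.card V : ℝ) - 2) =
        2 * (S.card - 1) * ((Fintype.card V : ℝ) - 2 - (∑ a ∈ S, (d a : ℝ) - S.card)) := by
      unfold rt
      linear_combination h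
    have h3 : 0 ≤ (cutw (fchx d) S - rt d S) * ((Fintype.card V : ℝ) - 2) := by
      rw [h2]
      exact mul_nonneg (by linarith) (by linarith)
    have h4 : 0 ≤ cutw (fchx d) S - rt d S := nonneg_of_mul_nonneg_left h3 (by linarith)
    linarith

end H13G
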