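import Pool.Agent.Lib.H13G.F

/-! # H13G, chunk H1: from the plane weighting to the condition of the spanning tree theorem -/

set_option autoImplicit false
set_option linter.unusedSectionVars false

namespace H13G

open Finset H98P H63F

variable {V : Type*} [Fintype V] [DecidableEq V]

/-- COMPONENTS. PROOF: let `k` be the number of the colours of the vertices outside `S`, `C_i` the colour classes (subsets
of `univ \ S`, nonempty, proper). An edge of `G` which leaves `C_i` has its other end in `S`, so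
`∑ i, cutw x C_i ≤ ∑ v ∈ S, cutw x {v} = ∑ v ∈ S, d v`; with `cutw x C_i ≥ rt d C_i` this is
`(2 n - 2 - d(S)) - 2 (n - |S|) + 2 k ≤ d(S)`, that is `k + |S| ≤ d(S) + 1`. -/
theorem comp_bound {G : Finset (Sym2 V)} {x : Sym2 V → ℝ} {d : V → ℕ} (hs : ∑ v, d v + 2 = 2 * Fintype.card V)
    (hx : ∀ e, 0 ≤ x e) (hG : ∀ e, e ∉ G → x e = 0) (hl : ∀ v, s(v, v) ∉ G) (hd : ∀ v, cutw x {v} = d v)
    (hr : ∀ S : Finset V, S.Nonempty → S ≠ univ → rt d S ≤ cutw x S)
    {S : Finset V} (hS : S.Nonempty) (c : V → V)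
    (hc : ∀ u, u ∉ S → ∀ v, v ∉ S → s(u, v) ∈ G → c u = c v) :
    ((univ \ S).image c).card + S.card ≤ ∑ v ∈ S, d v + 1 := by
  sorry

end H13G
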