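import Pool.Agent.Lib.H13G.F

/-! # H13G, chunk H2: from the plane weighting to the condition of the spanning tree theorem -/

set_option autoImplicit false
set_option linter.unusedSectionVars false

namespace H13G

open Finset H98P H63F

variable {V : Type*} [Fintype V] [DecidableEq V]

/-- CONNECTED. PROOF: otherwise a component `C` (proper, nonempty) has `cutw x C = 0 = cutw x (univ \ C)`, but
`rt d C + rt d (univ \ C) = 2 n - 2 - 2 n + 4 = 2`. -/
theorem conn {G : Finset (Sym2 V)} {x : Sym2 V → ℝ} {d : V → ℕ} (hV : 2 ≤ Fintype.card V)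
    (hs : ∑ v, d v + 2 = 2 * Fintype.card V)
    (hG : ∀ e, e ∉ G → x e = 0)
    (hr : ∀ S : Finset V, S.Nonempty → S ≠ univ → rt d S ≤ cutw x S) :
    (SimpleGraph.fromEdgeSet (G : Set (Sym2 V))).Connected := by
  classical
  have hne : Nonempty V := Fintype.card_pos_iff.1 (by omega)
  rw [SimpleGraph.connected_iff]
  refine ⟨?_, hne⟩
  intro u v
  by_contra huv
  set H : SimpleGraph V := SimpleGraph.fromEdgeSet (G : Set (Sym2 V)) with hH
  set C : Finset V := univ.filter fun w => H.Reachable u w with hC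
  have memC : ∀ w, w ∈ C ↔ H.Reachable u w := fun w => by simp [hC]
  have huC : u ∈ C := (memC u).2 (SimpleGraph.Reachable.refl u)
  have hvC : v ∉ C := fun h => huv ((memC v).1 h)
  -- no edge leaves `C`
  have hno : ∀ a b : V, a ∈ C → b ∉ C → s(a, b) ∉ G := by
    intro a b ha hb hab
    have hne' : a ≠ b := fun h => hb (h ▸ ha)
    have hadj : H.Adj a b := by
      rw [hH, SimpleGraph.fromEdgeSet_adj]
      exact ⟨Finset.mem_coe.2 hab, hne'⟩
    exact hb ((memC b).2 (((memC a).1 ha).trans hadj.reachable))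
  have hzero : ∀ S : Finset V, (∀ a b : V, a ∈ S → b ∉ S → s(a, b) ∉ G) → cutw x S = 0 := by
    intro S hS
    unfold cutw
    refine Finset.sum_eq_zero fun e _ => ?_
    by_cases he : e ∈ G
    · have : px e S = 0 := by
        unfold px
        rw [if_neg]
        rintro ⟨a, ha, b, hb, rfl⟩
        exact hS a b ha hb he
      rw [this, mul_zero]
    · rw [hG e he, zero_mul]
  have h1 : cutw x C = 0 := hzero C hno
  have h2 : cutw x (univ \ C) = 0 := by
    refine hzero _ fun a b ha hb => ?_
    have ha' : a ∉ C := (Finset.mem_sdiff.1 ha).2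
    have hb' : b ∈ C := by
      by_contra h
      exact hb (Finset.mem_sdiff.2 ⟨Finset.mem_univ _, h⟩)
    rw [Sym2.eq_swap]
    exact hno b a hb' ha'
  have h3 := hr C ⟨u, huC⟩ (fun h => hvC (h ▸ Finset.mem_univ v))
  have h4 := hr (univ \ C) ⟨v, Finset.mem_sdiff.2 ⟨Finset.mem_univ _, hvC⟩⟩ (fun h => by
    have : u ∈ univ \ C := by rw [h]; exact Finset.mem_univ u
    exact (Finset.mem_sdiff.1 this).2 huC)
  rw [h1] at h3
  rw [h2] at h4
  have h5 : ∑ w ∈ univ \ C, (d w : ℝ) + ∑ w ∈ C, (d w : ℝ) = ∑ w, (d w : ℝ) :=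
    Finset.sum_sdiff (Finset.subset_univ C)
  have h6 : (univ \ C).card + C.card = Fintype.card V :=
    Finset.card_sdiff_add_card_eq_card (Finset.subset_univ C)
  have h7 : (((univ \ C).card : ℕ) : ℝ) + (C.card : ℝ) = Fintype.card V := by exact_mod_cast h6
  have h8 : (∑ w, (d w : ℝ)) + 2 = 2 * Fintype.card V := by exact_mod_cast hs
  unfold rt at h3 h4
  linarith

end H13G
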